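import Pool.Agent.Helper53.TX.Far
import Pool.Agent.Helper57.TX.Defs

/-!
# TX: block A2 (`far0`)
-/

set_option autoImplicit false
open MeasureTheory Set Filter Topology
open Pool.Agent.Helper57.Zeta Pool.Agent.Helper57.LH Pool.Agent.Helper57.ED Pool.Agent.Helper54.LG
open Pool.Agent.Helper69.UG (XX far near)


namespace Pool.Agent.Helper53.TX

/-- A2: zeros far from the line, mean without a weight -/
theorem far0 : ∃ C Y₀ T₀ : ℝ, 0 < C ∧ ∀ T M Y : ℝ, T₀ ≤ T → 16 ≤ M → M ≤ Real.log T → Y₀ ≤ Y →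
    IntegrableOn (far T M Y) (Pool.Agent.Helper57.TX.JJ T) ∧ ∫ t in Pool.Agent.Helper57.TX.JJ T, far T M Y t ≤ C * M * Real.exp (-(Y / 8)) * T := by
  obtain ⟨C, Y0, T0, hC, -, hT0, h⟩ := tx0
  refine ⟨C, Y0, T0, hC, fun T M Y hT hM hML hY => ?_⟩
  have hTp : 0 < T := by linarith
  obtain ⟨h1, h2⟩ := h T hT M Y 0 hM hML hY (by rw [abs_zero]; exact hTp.le)
  simp only [add_zero] at h1 h2
  have hsub : Pool.Agent.Helper57.TX.JJ T ⊆ Icc (-(4 * T)) (4 * T) := by
    unfold Pool.Agent.Helper57.TX.JJ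
    exact Icc_subset_Icc (by linarith) le_rfl
  refine ⟨h1.mono_set hsub, le_trans ?_ h2⟩
  exact setIntegral_mono_set h1 (ae_of_all _ fun t => far_nn T M Y t) hsub.eventuallyLE

end Pool.Agent.Helper53.TX
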