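import Pool.Agent.Helper57.ED.Deep
import Pool.Agent.Helper54.LG.Conv
import Pool.Agent.Helper54.LG.Pt
import Pool.Agent.Helper56.UG.FarB

/-!
# TX0: the mean of `far`, all kernel scales `16 ≤ M ≤ log T`, without a weight
-/

set_option autoImplicit false
open MeasureTheory Set Filter Topology
open Pool.Agent.Helper57.Zeta Pool.Agent.Helper57.LH Pool.Agent.Helper57.ED Pool.Agent.Helper54.LG
open Pool.Agent.Helper69.UG (XX far)
open Pool.Agent.Helper56.UG (tsum_bound56)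

namespace Pool.Agent.Helper53.TX

lemma PW_pos53 {W : ℝ} (hW : 0 < W) (t : ℝ) : 0 < PW W t := by
  unfold PW
  have := Real.pi_pos
  positivity

lemma PW_cont53 {W : ℝ} (hW : 0 < W) (τ : ℝ) : Continuous fun t => PW W (t - τ) := by
  have hpi := Real.pi_pos
  unfold PW
  refine Continuous.div continuous_const (by fun_prop) fun t => ?_
  positivity

/-- One zero. -/
lemma one_zero {T M Y τ : ℝ} (hT : 1 < T) (hM : 16 ≤ M) (hML : M ≤ Real.log T) (ρ : ZS)
    (hY : Y ≤ Real.log T * |(ρ : ℂ).re - 1 / 2|) :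
    Integrable (fun t => PW T (t - τ) * (mx ρ * (Real.exp (2 * za (XX T M) ρ) / (1 + zb (XX T M) t ρ ^ 2)))) ∧
    ∫ t, PW T (t - τ) * (mx ρ * (Real.exp (2 * za (XX T M) ρ) / (1 + zb (XX T M) t ρ ^ 2))) ≤
      M * Real.exp (-(Y / 8)) * (mx ρ * (2 * Real.pi / Real.log T * PW T ((ρ : ℂ).im - τ)) *
        Real.exp (Real.log T * |(ρ : ℂ).re - 1 / 2| / 4)) := by
  have hT0 : 0 < T := by linarith
  have hM0 : 0 < M := by linarith
  have hL : 0 < Real.log T := by linarith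
  have hX1 : 1 ≤ XX T M := by
    unfold XX
    rw [le_div_iff₀ hM0]
    linarith
  have hX0 : 0 < XX T M := by linarith
  have hpi := Real.pi_pos
  have hc := conv_le hT0 hX0 τ (ρ : ℂ).im
  have e1 : ∀ t, PW T (t - τ) * (mx ρ * (Real.exp (2 * za (XX T M) ρ) / (1 + zb (XX T M) t ρ ^ 2))) =
      (mx ρ * Real.exp (2 * za (XX T M) ρ)) * (PW T (t - τ) * (1 / (1 + (XX T M * (t - (ρ : ℂ).im)) ^ 2))) := by
    intro t
    unfold zb
    ring
  simp only [e1]
  refine ⟨hc.1.const_mul _, ?_⟩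
  rw [integral_const_mul]
  have hm := mx_nonneg (ρ : ℂ)
  have hp := PW_pos53 hT0 ((ρ : ℂ).im - τ)
  set l : ℝ := Real.log T * |(ρ : ℂ).re - 1 / 2| with hl
  have hl0 : 0 ≤ l := by positivity
  have h1 : 2 * za (XX T M) ρ ≤ -(Y / 8) + l / 4 := by
    have h2 : 2 * za (XX T M) ρ = 2 * l / M := by
      unfold za XX
      rw [hl]
      ring
    rw [h2, div_le_iff₀ hM0]
    have h3 : l / 8 * 16 ≤ (-(Y / 8) + l / 4) * M := by
      have h4 : l / 8 ≤ -(Y / 8) + l / 4 := by linarith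
      calc l / 8 * 16 ≤ (-(Y / 8) + l / 4) * 16 := by gcongr
        _ ≤ (-(Y / 8) + l / 4) * M := by
            apply mul_le_mul_of_nonneg_left hM
            linarith
    linarith
  have h2 : Real.exp (2 * za (XX T M) ρ) ≤ Real.exp (-(Y / 8)) * Real.exp (l / 4) := by
    rw [← Real.exp_add]
    exact Real.exp_le_exp.2 h1
  have h3 : 1 / (T * XX T M) ≤ 1 := by
    rw [div_le_one (by positivity)]
    nlinarith
  have h4 : ∫ t, PW T (t - τ) * (1 / (1 + (XX T M * (t - (ρ : ℂ).im)) ^ 2)) ≤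
      M * (2 * Real.pi / Real.log T * PW T ((ρ : ℂ).im - τ)) := by
    refine hc.2.trans ?_
    calc Real.pi / XX T M * (1 + 1 / (T * XX T M)) * PW T ((ρ : ℂ).im - τ)
        ≤ Real.pi / XX T M * (1 + 1) * PW T ((ρ : ℂ).im - τ) := by gcongr
      _ = _ := by
          unfold XX
          field_simp
          ring
  calc mx ρ * Real.exp (2 * za (XX T M) ρ) * ∫ t, PW T (t - τ) * (1 / (1 + (XX T M * (t - (ρ : ℂ).im)) ^ 2))
      ≤ mx ρ * (Real.exp (-(Y / 8)) * Real.exp (l / 4)) * (M * (2 * Real.pi / Real.log T * PW T ((ρ : ℂ).im - τ))) := by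
        gcongr
        exact integral_nonneg fun t => by
          have := PW_pos53 hT0 (t - τ)
          positivity
    _ = _ := by ring

/-- The sum over both sides of the line. -/
lemma two_sides {T τ Y : ℝ} (hT : 1 < T)
    (hD : ∀ Z : Finset ZS, (∀ ρ ∈ Z, Y ≤ yy T ρ) →
      ∑ ρ ∈ Z, mx ρ * (2 * Real.pi / Real.log T * PW T ((ρ : ℂ).im - τ)) * Real.exp (Real.pi / 2 * yy T ρ) ≤ 1)
    (Z : Finset ZS) (hZ : ∀ ρ ∈ Z, 2 * Real.pi * Y ≤ Real.log T * |(ρ : ℂ).re - 1 / 2|) :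
    ∑ ρ ∈ Z, mx ρ * (2 * Real.pi / Real.log T * PW T ((ρ : ℂ).im - τ)) *
      Real.exp (Real.log T * |(ρ : ℂ).re - 1 / 2| / 4) ≤ 2 := by
  classical
  have hpi := Real.pi_pos
  have hL : 0 < Real.log T := Real.log_pos hT
  set Z1 : Finset ZS := Z.filter fun ρ : ZS => 1 / 2 ≤ (ρ : ℂ).re with hZ1
  set Z2 : Finset ZS := Z.filter fun ρ : ZS => ¬ 1 / 2 ≤ (ρ : ℂ).re with hZ2
  have k1 := hD Z1 (by
    intro ρ hρ
    rw [hZ1, Finset.mem_filter] at hρ
    have h1 := hZ ρ hρ.1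
    rw [abs_of_nonneg (by linarith [hρ.2])] at h1
    unfold yy
    rw [le_div_iff₀ (by positivity)]
    linarith)
  have k2 := hD (Z2.map refl.toEmbedding) (by
    intro σ hσ
    rw [Finset.mem_map] at hσ
    obtain ⟨ρ, hρ, rfl⟩ := hσ
    rw [hZ2, Finset.mem_filter, not_le] at hρ
    have h1 := hZ ρ hρ.1
    rw [abs_of_neg (by linarith [hρ.2])] at h1
    unfold yy
    rw [Equiv.coe_toEmbedding, refl_re, le_div_iff₀ (by positivity)]
    linarith)
  rw [Finset.sum_map] at k2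
  rw [← Finset.sum_filter_add_sum_filter_not Z (fun ρ : ZS => 1 / 2 ≤ (ρ : ℂ).re)]
  have h3 : ∑ ρ ∈ Z1, mx ρ * (2 * Real.pi / Real.log T * PW T ((ρ : ℂ).im - τ)) *
      Real.exp (Real.log T * |(ρ : ℂ).re - 1 / 2| / 4) ≤ 1 := by
    refine le_trans (le_of_eq (Finset.sum_congr rfl fun ρ hρ => ?_)) k1
    rw [hZ1, Finset.mem_filter] at hρ
    congr 2
    rw [abs_of_nonneg (by linarith [hρ.2])]
    unfold yy
    field_simp
    ring
  have h4 : ∑ ρ ∈ Z2, mx ρ * (2 * Real.pi / Real.log T * PW T ((ρ : ℂ).im - τ)) *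
      Real.exp (Real.log T * |(ρ : ℂ).re - 1 / 2| / 4) ≤ 1 := by
    refine le_trans (le_of_eq (Finset.sum_congr rfl fun ρ hρ => ?_)) k2
    rw [hZ2, Finset.mem_filter, not_le] at hρ
    rw [Equiv.coe_toEmbedding, refl_mx, refl_im]
    congr 2
    rw [abs_of_neg (by linarith [hρ.2])]
    unfold yy
    rw [refl_re]
    field_simp
    ring
  linarith

/-- TX0, Poisson weight. -/
theorem far_PW {K : ℝ} (hK : 0 ≤ K) : ∃ Y0 T0 : ℝ, 1 ≤ Y0 ∧ 3 ≤ T0 ∧ ∀ T M Y τ : ℝ, T0 ≤ T → 16 ≤ M → M ≤ Real.log T →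
    Y0 ≤ Y → |τ| ≤ K * T → Integrable (fun t => PW T (t - τ) * far T M Y t) ∧
      ∫ t, PW T (t - τ) * far T M Y t ≤ 2 * M * Real.exp (-(Y / 8)) := by
  classical
  have hpi := Real.pi_pos
  obtain ⟨Y1, hY1, hW⟩ := deep (ε := 1) hK one_pos
  obtain ⟨T1, hT1⟩ := eventually_atTop.1 hW
  refine ⟨max 1 (2 * Real.pi * Y1), max 3 T1, le_max_left _ _, le_max_left _ _, ?_⟩
  intro T M Y τ hT hM hML hY hτ
  have hT3 : 3 ≤ T := (le_max_left _ _).trans hT
  have hT' : T1 ≤ T := (le_max_right _ _).trans hT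
  have hTg : 1 < T := by linarith
  have hT0 : 0 < T := by linarith
  have hM0 : 0 < M := by linarith
  have hD := hT1 T hT' τ hτ
  set F : ZS → ℝ → ℝ := fun ρ t => PW T (t - τ) * (mx ρ * (if Real.log T * |(ρ : ℂ).re - 1 / 2| < Y then 0 else
    Real.exp (2 * za (XX T M) ρ) / (1 + zb (XX T M) t ρ ^ 2))) with hF
  have hF0 : ∀ ρ t, 0 ≤ F ρ t := by
    intro ρ t
    have h1 := PW_pos53 hT0 (t - τ)
    have h2 := mx_nonneg (ρ : ℂ)
    simp only [hF]
    split_ifs
    · simp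
    · positivity
  have hFm : ∀ ρ, Measurable (F ρ) := by
    intro ρ
    simp only [hF]
    refine (PW_cont53 hT0 τ).measurable.mul (Measurable.const_mul ?_ _)
    split_ifs
    · exact measurable_const
    · unfold zb
      refine Continuous.measurable (Continuous.div continuous_const (by fun_prop) fun t => ?_)
      positivity
  have hone : ∀ ρ : ZS, ¬ Real.log T * |(ρ : ℂ).re - 1 / 2| < Y → Integrable (F ρ) ∧ ∫ t, F ρ t ≤
      M * Real.exp (-(Y / 8)) * (mx ρ * (2 * Real.pi / Real.log T * PW T ((ρ : ℂ).im - τ)) *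
        Real.exp (Real.log T * |(ρ : ℂ).re - 1 / 2| / 4)) := by
    intro ρ h
    simp only [hF, if_neg h]
    exact one_zero hTg hM hML ρ (not_lt.1 h)
  have hFi : ∀ ρ, Integrable (F ρ) := by
    intro ρ
    by_cases h : Real.log T * |(ρ : ℂ).re - 1 / 2| < Y
    · simp only [hF, if_pos h, mul_zero]
      exact integrable_zero _ _ _
    · exact (hone ρ h).1
  have hB : ∀ Z : Finset ZS, ∑ ρ ∈ Z, ∫ t, F ρ t ≤ 2 * M * Real.exp (-(Y / 8)) := by
    intro Z
    set Z' : Finset ZS := Z.filter fun ρ : ZS => ¬ Real.log T * |(ρ : ℂ).re - 1 / 2| < Y with hZ'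
    have h1 : ∑ ρ ∈ Z, ∫ t, F ρ t = ∑ ρ ∈ Z', ∫ t, F ρ t := by
      rw [hZ', Finset.sum_filter]
      refine Finset.sum_congr rfl fun ρ _ => ?_
      by_cases h : Real.log T * |(ρ : ℂ).re - 1 / 2| < Y
      · rw [if_neg (not_not.2 h)]
        simp only [hF, if_pos h, mul_zero, integral_zero]
      · rw [if_pos h]
    rw [h1]
    have h2 := two_sides hTg hD Z' (by
      intro ρ hρ
      rw [hZ', Finset.mem_filter, not_lt] at hρ
      exact ((le_max_right _ _).trans hY).trans hρ.2)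
    calc ∑ ρ ∈ Z', ∫ t, F ρ t ≤ ∑ ρ ∈ Z', M * Real.exp (-(Y / 8)) *
          (mx ρ * (2 * Real.pi / Real.log T * PW T ((ρ : ℂ).im - τ)) *
            Real.exp (Real.log T * |(ρ : ℂ).re - 1 / 2| / 4)) := by
          refine Finset.sum_le_sum fun ρ hρ => (hone ρ ?_).2
          rw [hZ', Finset.mem_filter] at hρ
          exact hρ.2
      _ = M * Real.exp (-(Y / 8)) * ∑ ρ ∈ Z', mx ρ * (2 * Real.pi / Real.log T * PW T ((ρ : ℂ).im - τ)) *
            Real.exp (Real.log T * |(ρ : ℂ).re - 1 / 2| / 4) := by rw [Finset.mul_sum]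
      _ ≤ M * Real.exp (-(Y / 8)) * 2 := by gcongr
      _ = _ := by ring
  obtain ⟨r1, r2⟩ := tsum_bound56 hF0 hFm hFi hB
  have hfar : (fun t => PW T (t - τ) * far T M Y t) = fun t => ∑' ρ, F ρ t := by
    funext t
    unfold far
    rw [← tsum_mul_left]
  rw [hfar]
  exact ⟨r1, r2⟩

theorem far_nn (T M Y t : ℝ) : 0 ≤ far T M Y t := by
  classical
  unfold far
  refine tsum_nonneg fun ρ => ?_
  have h2 := mx_nonneg (ρ : ℂ)
  split_ifs
  · simp
  · positivity

/-- TX0: the mean of `far` on any interval of length `5 T` near `[0, T]`. -/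
theorem tx0 : ∃ C Y0 T0 : ℝ, 0 < C ∧ 1 ≤ Y0 ∧ 3 ≤ T0 ∧ ∀ T : ℝ, T0 ≤ T → ∀ M Y u : ℝ, 16 ≤ M → M ≤ Real.log T → Y0 ≤ Y →
    |u| ≤ T → IntegrableOn (fun t => far T M Y (t + u)) (Icc (-(4 * T)) (4 * T)) ∧
      ∫ t in Icc (-(4 * T)) (4 * T), far T M Y (t + u) ≤ C * M * Real.exp (-(Y / 8)) * T := by
  have hpi := Real.pi_pos
  obtain ⟨Y0, T0, hY0, hT0, h⟩ := far_PW (K := 1) one_pos.le
  refine ⟨34 * Real.pi, Y0, T0, by positivity, hY0, hT0, ?_⟩
  intro T hT M Y u hM hML hY hu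
  have hTp : 0 < T := by linarith
  obtain ⟨h1, h2⟩ := h T M Y u hT hM hML hY (by rw [one_mul]; exact hu)
  have h3 : Integrable (fun t => PW T t * far T M Y (t + u)) := by
    have := h1.comp_add_right u
    refine this.congr (ae_of_all _ fun t => ?_)
    simp
  have h4 : ∫ t, PW T t * far T M Y (t + u) ≤ 2 * M * Real.exp (-(Y / 8)) := by
    rw [← integral_add_right_eq_self (fun t => PW T (t - u) * far T M Y t) u] at h2
    simpa using h2
  have hlow : ∀ t ∈ Icc (-(4 * T)) (4 * T), 1 ≤ (17 * Real.pi * T) * PW T t := by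
    intro t ht
    unfold PW
    rw [mul_div_assoc', le_div_iff₀ (by positivity)]
    have h5 : t ^ 2 ≤ (4 * T) ^ 2 := by
      rw [← sq_abs t]
      exact pow_le_pow_left₀ (abs_nonneg _) (abs_le.2 ht) 2
    have h6 : Real.pi * (T ^ 2 + t ^ 2) ≤ Real.pi * (T ^ 2 + (4 * T) ^ 2) := by gcongr
    nlinarith
  have hPc : Continuous fun t : ℝ => PW T t := by
    have := PW_cont53 hTp 0
    simpa using this
  have hmeas : AEStronglyMeasurable (fun t => far T M Y (t + u)) volume := by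
    have e : (fun t => far T M Y (t + u)) = fun t => (PW T t)⁻¹ * (PW T t * far T M Y (t + u)) := by
      funext t
      have := (PW_pos53 hTp t).ne'
      field_simp
    rw [e]
    exact (hPc.inv₀ fun t => (PW_pos53 hTp t).ne').aestronglyMeasurable.mul h3.aestronglyMeasurable
  have h5 : Integrable (fun t => (17 * Real.pi * T) * (PW T t * far T M Y (t + u))) := h3.const_mul _
  have hle : ∀ t ∈ Icc (-(4 * T)) (4 * T), far T M Y (t + u) ≤ (17 * Real.pi * T) * (PW T t * far T M Y (t + u)) := by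
    intro t ht
    have := hlow t ht
    have h6 := far_nn T M Y (t + u)
    nlinarith
  have hI : IntegrableOn (fun t => far T M Y (t + u)) (Icc (-(4 * T)) (4 * T)) := by
    refine Integrable.mono' h5.integrableOn hmeas.restrict ?_
    refine (ae_restrict_iff' measurableSet_Icc).2 (ae_of_all _ fun t ht => ?_)
    rw [Real.norm_of_nonneg (far_nn _ _ _ _)]
    exact hle t ht
  refine ⟨hI, ?_⟩
  calc ∫ t in Icc (-(4 * T)) (4 * T), far T M Y (t + u)
      ≤ ∫ t in Icc (-(4 * T)) (4 * T), (17 * Real.pi * T) * (PW T t * far T M Y (t + u)) :=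
        setIntegral_mono_on hI h5.integrableOn measurableSet_Icc hle
    _ ≤ ∫ t, (17 * Real.pi * T) * (PW T t * far T M Y (t + u)) := by
        refine setIntegral_le_integral h5 (ae_of_all _ fun t => ?_)
        have h7 := PW_pos53 hTp t
        have h6 := far_nn T M Y (t + u)
        show 0 ≤ _
        positivity
    _ = (17 * Real.pi * T) * ∫ t, PW T t * far T M Y (t + u) := integral_const_mul _ _
    _ ≤ (17 * Real.pi * T) * (2 * M * Real.exp (-(Y / 8))) := by gcongr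
    _ = _ := by ring

end Pool.Agent.Helper53.TX
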